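import Mathlib

/-!
# Closed walks in the residue classes visited by a trajectory of the 3x+1 map

Two closed walks through the same residue class modulo `M` which begin with different steps give a
nonzero multiple of `M` which is at most exponential in the lengths of the walks.
-/

set_option autoImplicit false

namespace Pool.Agent.V5helper8.RC

/-- a letter as a number -/
def nb (ε : Bool) : ℕ := if ε then 1 else 0

/-- the number of odd steps -/
def ao : List Bool → ℕ
  | [] => 0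
  | ε :: u => nb ε + ao u

/-- the constant term -/
def bo : List Bool → ℕ
  | [] => 0
  | ε :: u => nb ε * 3 ^ ao u + 2 * bo u

lemma nb_le (ε : Bool) : nb ε ≤ 1 := by cases ε <;> simp [nb]

lemma ao_le (u : List Bool) : ao u ≤ u.length := by
  induction u with
  | nil => simp [ao]
  | cons ε u ih =>
    have := nb_le ε
    simp only [ao, List.length_cons]
    omega

lemma bo_le (u : List Bool) : bo u + 2 ^ u.length ≤ 3 ^ u.length := by
  induction u with
  | nil => simp [bo]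
  | cons ε u ih =>
    have h1 := nb_le ε
    have h2 : 3 ^ ao u ≤ 3 ^ u.length := Nat.pow_le_pow_right (by norm_num) (ao_le u)
    have h3 : nb ε * 3 ^ ao u ≤ 1 * 3 ^ u.length := Nat.mul_le_mul h1 h2
    simp only [bo, List.length_cons, pow_succ]
    omega

/-- one step from the class `c` to the class `d` with the parity `ε` -/
def St {M : ℕ} (c : ZMod M) (ε : Bool) (d : ZMod M) : Prop :=
  2 * d = 3 ^ nb ε * c + (nb ε : ZMod M)

/-- walks -/
inductive Wk {α : Type} (E : α → Bool → α → Prop) : List Bool → α → α → Prop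
  | nil (c : α) : Wk E [] c c
  | cons {ε : Bool} {u : List Bool} {c e d : α} : E c ε e → Wk E u e d → Wk E (ε :: u) c d

section walk

variable {α : Type} {E : α → Bool → α → Prop}

lemma Wk.append {u v : List Bool} {c e d : α} (h1 : Wk E u c e) (h2 : Wk E v e d) :
    Wk E (u ++ v) c d := by
  induction h1 with
  | nil c => exact h2
  | cons h _ ih => exact Wk.cons h (ih h2)

lemma Wk.split {u v : List Bool} {c d : α} (h : Wk E (u ++ v) c d) :
    ∃ e, Wk E u c e ∧ Wk E v e d := by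
  induction u generalizing c with
  | nil => exact ⟨c, Wk.nil c, h⟩
  | cons ε u ih =>
    cases h with
    | cons h1 h2 =>
      obtain ⟨e, h3, h4⟩ := ih h2
      exact ⟨e, Wk.cons h1 h3, h4⟩

lemma Wk.mem {F : Finset α} (hF : ∀ c ε d, E c ε d → d ∈ F) {u : List Bool} {c d : α}
    (h : Wk E u c d) (hc : c ∈ F) : d ∈ F := by
  induction h with
  | nil c => exact hc
  | cons h1 _ ih => exact ih (hF _ _ _ h1)

/-- a shortest walk has fewer letters than there are vertices -/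
lemma Wk.short {F : Finset α} (hF : ∀ c ε d, E c ε d → d ∈ F) {u : List Bool} {c d : α}
    (h : Wk E u c d) (hc : c ∈ F) : ∃ w, Wk E w c d ∧ w.length < F.card := by
  classical
  have hex : ∃ n, ∃ w, Wk E w c d ∧ w.length = n := ⟨_, u, h, rfl⟩
  obtain ⟨w, hw, hn⟩ := Nat.find_spec hex
  refine ⟨w, hw, ?_⟩
  by_contra hlt
  rw [not_lt] at hlt
  have hv : ∀ i : Fin (w.length + 1), ∃ e, Wk E (w.take i) c e ∧ Wk E (w.drop i) e d := by
    intro i
    apply Wk.split
    rw [List.take_append_drop]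
    exact hw
  choose v hv1 hv2 using hv
  obtain ⟨i, -, j, -, hij, hvv⟩ := Finset.exists_ne_map_eq_of_card_lt_of_maps_to
    (s := (Finset.univ : Finset (Fin (w.length + 1)))) (t := F) (f := v)
    (by rw [Finset.card_univ, Fintype.card_fin]; omega)
    (fun i _ => (hv1 i).mem hF hc)
  have key : ∀ i j : Fin (w.length + 1), i < j → v i = v j → False := by
    intro i j hij hvv
    have h1 : Wk E (w.take i ++ w.drop j) c d := (hv1 i).append (hvv ▸ hv2 j)
    have h2 := Nat.find_min' hex ⟨_, h1, rfl⟩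
    rw [← hn, List.length_append, List.length_take, List.length_drop] at h2
    have h3 := j.2
    have h4 : (i : ℕ) < j := hij
    omega
  rcases lt_or_gt_of_ne hij with h' | h'
  · exact key i j h' hvv
  · exact key j i h' hvv.symm

end walk

lemma Wk.lin {M : ℕ} {E : ZMod M → Bool → ZMod M → Prop} (hE : ∀ c ε d, E c ε d → St c ε d)
    {u : List Bool} {c d : ZMod M} (h : Wk E u c d) :
    2 ^ u.length * d = 3 ^ ao u * c + (bo u : ZMod M) := by
  induction h with
  | nil c => simp [ao, bo]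
  | @cons ε u c e d h1 _ ih =>
    have h2 : 2 * e = 3 ^ nb ε * c + (nb ε : ZMod M) := hE _ _ _ h1
    have h3 : (2 : ZMod M) ^ (ε :: u).length * d = 2 * (2 ^ u.length * d) := by
      rw [List.length_cons, pow_succ]; ring
    rw [h3, ih]
    have h4 : (2 : ZMod M) * (3 ^ ao u * e + (bo u : ZMod M)) =
        3 ^ ao u * (2 * e) + 2 * (bo u : ZMod M) := by ring
    rw [h4, h2]
    simp only [ao, bo]
    push_cast
    ring

/-- two closed walks -/
theorem two_walks {M : ℕ} {c e e' : ZMod M} {ε ε' : Bool} {u u' : List Bool}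
    (h1 : St c ε e) (h1' : St c ε' e') (h2 : 2 ^ u.length * c = 3 ^ ao u * e + (bo u : ZMod M))
    (h2' : 2 ^ u'.length * c = 3 ^ ao u' * e' + (bo u' : ZMod M)) (hne : e ≠ e' ∨ ε ≠ ε') :
    M < 2 * 3 ^ ((u.length + 1) + (u'.length + 1)) := by
  unfold St at h1 h1'
  obtain ⟨k, hk⟩ : ∃ k, k = u.length := ⟨_, rfl⟩
  obtain ⟨k', hk'⟩ : ∃ k', k' = u'.length := ⟨_, rfl⟩
  have hA := ao_le u
  have hA' := ao_le u'
  have hB := bo_le u
  have hB' := bo_le u'
  obtain ⟨A, hAe⟩ : ∃ A, A = ao u := ⟨_, rfl⟩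
  obtain ⟨A', hAe'⟩ : ∃ A', A' = ao u' := ⟨_, rfl⟩
  obtain ⟨B, hBe⟩ : ∃ B, B = bo u := ⟨_, rfl⟩
  obtain ⟨B', hBe'⟩ : ∃ B', B' = bo u' := ⟨_, rfl⟩
  rw [← hk, ← hAe, ← hBe] at h2
  rw [← hk', ← hAe', ← hBe'] at h2'
  rw [← hk, ← hAe] at hA
  rw [← hk', ← hAe'] at hA'
  rw [← hk, ← hBe] at hB
  rw [← hk', ← hBe'] at hB'
  rw [← hk, ← hk']
  clear hk hk' hAe hAe' hBe hBe' u u'
  have hn := nb_le ε
  have hn' := nb_le ε'
  have hnn : nb ε = nb ε' → ε = ε' := by cases ε <;> cases ε' <;> simp [nb]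
  obtain ⟨n, hne1⟩ : ∃ n, n = nb ε := ⟨_, rfl⟩
  obtain ⟨n', hne1'⟩ : ∃ n', n' = nb ε' := ⟨_, rfl⟩
  rw [← hne1] at h1 hn
  rw [← hne1'] at h1' hn'
  rw [← hne1, ← hne1'] at hnn
  -- integers
  obtain ⟨N, hN⟩ : ∃ N : ℤ, N = 2 ^ (k + 1) - 3 ^ (n + A) := ⟨_, rfl⟩
  obtain ⟨N', hN'⟩ : ∃ N' : ℤ, N' = 2 ^ (k' + 1) - 3 ^ (n' + A') := ⟨_, rfl⟩
  obtain ⟨b, hb⟩ : ∃ b : ℤ, b = n * 3 ^ A + 2 * B := ⟨_, rfl⟩
  obtain ⟨b', hb'⟩ : ∃ b' : ℤ, b' = n' * 3 ^ A' + 2 * B' := ⟨_, rfl⟩
  obtain ⟨f, hf⟩ : ∃ f : ℤ, f = 3 ^ n * B + n * 2 ^ k := ⟨_, rfl⟩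
  obtain ⟨f', hf'⟩ : ∃ f' : ℤ, f' = 3 ^ n' * B' + n' * 2 ^ k' := ⟨_, rfl⟩
  have e1 : (N : ZMod M) * c = (b : ZMod M) := by
    rw [hN, hb]; push_cast
    linear_combination 2 * h2 + 3 ^ A * h1
  have e1' : (N' : ZMod M) * c = (b' : ZMod M) := by
    rw [hN', hb']; push_cast
    linear_combination 2 * h2' + 3 ^ A' * h1'
  have e2 : (N : ZMod M) * e = (f : ZMod M) := by
    rw [hN, hf]; push_cast
    linear_combination 2 ^ k * h1 + 3 ^ n * h2
  have e2' : (N' : ZMod M) * e' = (f' : ZMod M) := by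
    rw [hN', hf']; push_cast
    linear_combination 2 ^ k' * h1' + 3 ^ n' * h2'
  have e3 : 2 * f = 3 ^ n * b + n * N := by rw [hN, hb, hf]; ring
  have e3' : 2 * f' = 3 ^ n' * b' + n' * N' := by rw [hN', hb', hf']; ring
  have hodd : Odd N := by
    rw [hN]
    apply Even.sub_odd
    · exact ⟨2 ^ k, by ring⟩
    · exact Odd.pow (by decide)
  have hodd' : Odd N' := by
    rw [hN']
    apply Even.sub_odd
    · exact ⟨2 ^ k', by ring⟩
    · exact Odd.pow (by decide)
  -- the multiple of `M`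
  have hdvd : (M : ℤ) ∣ N * b' - N' * b := by
    rw [← ZMod.intCast_zmod_eq_zero_iff_dvd]
    push_cast
    rw [← e1, ← e1']
    ring
  have hD : N * b' - N' * b ≠ 0 := by
    intro hD
    rcases eq_or_ne n n' with hnn' | hnn'
    · have hεε : ε = ε' := hnn hnn'
      have hee : e ≠ e' := by
        rcases hne with h | h
        · exact h
        · exact absurd hεε h
      apply hee
      have e4 : 2 * (N * f' - N' * f) = 0 := by
        have : 2 * (N * f' - N' * f) = 3 ^ n * (N * b' - N' * b) := by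
          have : 2 * (N * f' - N' * f) = N * (2 * f') - N' * (2 * f) := by ring
          rw [this, e3, e3', ← hnn']; ring
        rw [this, hD, mul_zero]
      have e5 : N * f' - N' * f = 0 := by omega
      have e6 : ((N * N' : ℤ) : ZMod M) * (e - e') = 0 := by
        have h : ((N * f' - N' * f : ℤ) : ZMod M) = 0 := by rw [e5]; simp
        push_cast at h ⊢
        linear_combination (N' : ZMod M) * e2 - (N : ZMod M) * e2' - h
      have e7 : (2 : ZMod M) * (e - e') = 0 := by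
        rw [← hnn'] at h1'
        linear_combination h1 - h1'
      obtain ⟨r, hr⟩ := hodd.mul hodd'
      rw [hr] at e6
      push_cast at e6
      have e8 : e - e' = 0 := by linear_combination e6 - (r : ZMod M) * e7
      exact sub_eq_zero.1 e8
    · have hpar : Odd (N * b' - N' * b) := by
        have hb2 : b % 2 = n % 2 := by
          rw [hb]
          have h3 : (3 : ℤ) ^ A % 2 = 1 := by
            have : Odd ((3 : ℤ) ^ A) := Odd.pow (by decide)
            exact Int.odd_iff.1 this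
          rw [Int.add_mul_emod_self_left, Int.mul_emod, h3]
          simp
        have hb2' : b' % 2 = n' % 2 := by
          rw [hb']
          have h3 : (3 : ℤ) ^ A' % 2 = 1 := by
            have : Odd ((3 : ℤ) ^ A') := Odd.pow (by decide)
            exact Int.odd_iff.1 this
          rw [Int.add_mul_emod_self_left, Int.mul_emod, h3]
          simp
        rw [Int.odd_iff, Int.sub_emod, Int.mul_emod, Int.mul_emod N', Int.odd_iff.1 hodd,
          Int.odd_iff.1 hodd', hb2, hb2']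
        have : (n = 0 ∧ n' = 1) ∨ (n = 1 ∧ n' = 0) := by omega
        rcases this with ⟨h, h'⟩ | ⟨h, h'⟩ <;> rw [h, h'] <;> norm_num
      rw [hD] at hpar
      exact absurd hpar (by decide)
  have hM : (M : ℤ) ≤ |N * b' - N' * b| :=
    Int.le_of_dvd (abs_pos.2 hD) ((dvd_abs _ _).2 hdvd)
  -- sizes
  have hsize : ∀ (k n A B : ℕ), n ≤ 1 → A ≤ k → B + 2 ^ k ≤ 3 ^ k →
      |((2 : ℤ) ^ (k + 1) - 3 ^ (n + A))| ≤ 3 ^ (k + 1) - 1 ∧
      |((n : ℤ) * 3 ^ A + 2 * B)| ≤ 3 ^ (k + 1) - 1 := by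
    intro k n A B h1 h2 h3
    have h4 : (3 : ℤ) ^ (n + A) ≤ 3 ^ (k + 1) := pow_le_pow_right₀ (by norm_num) (by omega)
    have h5 : (2 : ℤ) ^ (k + 1) ≤ 3 ^ (k + 1) := pow_le_pow_left₀ (by norm_num) (by norm_num) _
    have h6 : (1 : ℤ) ≤ 3 ^ (n + A) := one_le_pow₀ (by norm_num)
    have h7 : (1 : ℤ) ≤ 2 ^ (k + 1) := one_le_pow₀ (by norm_num)
    have h8 : (B : ℤ) + 2 ^ k ≤ 3 ^ k := by exact_mod_cast h3
    have h9 : (3 : ℤ) ^ A ≤ 3 ^ k := pow_le_pow_right₀ (by norm_num) h2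
    have h10 : (1 : ℤ) ≤ 2 ^ k := one_le_pow₀ (by norm_num)
    have h11 : (0 : ℤ) ≤ 3 ^ A := by positivity
    have h12 : (n : ℤ) * 3 ^ A ≤ 3 ^ A := by
      have : (n : ℤ) ≤ 1 := by exact_mod_cast h1
      nlinarith
    have h13 : (0 : ℤ) ≤ n * 3 ^ A := by positivity
    constructor
    · rw [abs_le]; constructor <;> linarith
    · rw [abs_le, pow_succ]
      constructor
      · have : (0 : ℤ) ≤ B := by positivity
        have : (1 : ℤ) ≤ 3 ^ k := one_le_pow₀ (by norm_num)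
        linarith
      · linarith
  obtain ⟨s1, s2⟩ := hsize k n A B hn hA hB
  obtain ⟨s1', s2'⟩ := hsize k' n' A' B' hn' hA' hB'
  rw [← hN, ← hb] at *
  rw [← hN', ← hb'] at *
  have p1 : |N * b'| ≤ (3 ^ (k + 1) - 1) * (3 ^ (k' + 1) - 1) := by
    rw [abs_mul]
    exact mul_le_mul s1 s2' (abs_nonneg _) (le_trans (abs_nonneg _) s1)
  have p2 : |N' * b| ≤ (3 ^ (k' + 1) - 1) * (3 ^ (k + 1) - 1) := by
    rw [abs_mul]
    exact mul_le_mul s1' s2 (abs_nonneg _) (le_trans (abs_nonneg _) s1')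
  have p3 := abs_sub (N * b') (N' * b)
  have p4 : (1 : ℤ) ≤ 3 ^ (k + 1) := one_le_pow₀ (by norm_num)
  have p5 : (1 : ℤ) ≤ 3 ^ (k' + 1) := one_le_pow₀ (by norm_num)
  have p6 : (M : ℤ) < 2 * (3 ^ (k + 1) * 3 ^ (k' + 1)) := by nlinarith
  rw [← pow_add] at p6
  exact_mod_cast p6

end Pool.Agent.V5helper8.RC
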