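import Pool.Agent.V5helper8.RC.Traj
import Pool.Agent.H547R3.Sub.Tqk2
import Pool.Agent.R343.SC3

/-!
# The number of the elements of a cycle outside few residue classes
-/

set_option autoImplicit false

namespace Pool.Agent.V5helper8.RC

/-- cycles -/
def IsCycle (Z : Finset ℤ) : Prop :=
  ∃ (x : ℤ) (p : ℕ), 1 ≤ p ∧ T^[p] x = x ∧ Z = (Finset.range p).image fun i => T^[i] x

/-- a cycle is parametrized by its length -/
lemma param {Z : Finset ℤ} (hZ : IsCycle Z) : ∃ x : ℤ, 1 ≤ Z.card ∧ T^[Z.card] x = x ∧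
    (∀ j, 1 ≤ j → j < Z.card → T^[j] x ≠ x) ∧
    Z = (Finset.range Z.card).image (fun i => T^[i] x) := by
  classical
  obtain ⟨x, p, hp, hper, rfl⟩ := hZ
  have hex : ∃ q, 1 ≤ q ∧ T^[q] x = x := ⟨p, hp, hper⟩
  obtain ⟨h1, h2⟩ := Nat.find_spec hex
  obtain ⟨q, hq⟩ : ∃ q, q = Nat.find hex := ⟨_, rfl⟩
  rw [← hq] at h1 h2
  have hmin : ∀ j, 1 ≤ j → j < q → T^[j] x ≠ x := by
    intro j hj1 hj2 hj3
    rw [hq] at hj2
    exact Nat.find_min hex hj2 ⟨hj1, hj3⟩
  have hqp : q ≤ p := by rw [hq]; exact Nat.find_min' hex ⟨hp, hper⟩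
  have himg : (Finset.range p).image (fun i => T^[i] x) =
      (Finset.range q).image (fun i => T^[i] x) := by
    ext z
    simp only [Finset.mem_image, Finset.mem_range]
    constructor
    · rintro ⟨i, -, rfl⟩
      exact ⟨i % q, Nat.mod_lt _ (by omega), per_iter_mod h2 i⟩
    · rintro ⟨i, hi, rfl⟩
      exact ⟨i, by omega, rfl⟩
  have hinj : Set.InjOn (fun i => T^[i] x) (Finset.range q : Set ℕ) := by
    have key : ∀ i j, i < j → j < q → T^[i] x = T^[j] x → False := by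
      intro i j hij hj h
      apply hmin (q - j + i) (by omega) (by omega)
      rw [Function.iterate_add_apply, h, ← Function.iterate_add_apply,
        show q - j + j = q by omega, h2]
    intro i hi j hj h
    rw [Finset.coe_range, Set.mem_Iio] at hi hj
    rcases lt_trichotomy i j with h' | h' | h'
    · exact absurd h (fun h => key i j h' hj h)
    · exact h'
    · exact absurd h.symm (fun h => key j i h' hi h)
  have hcard : ((Finset.range p).image (fun i => T^[i] x)).card = q := by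
    rw [himg, Finset.card_image_of_injOn hinj, Finset.card_range]
  exact ⟨x, by rw [hcard]; exact h1, by rw [hcard]; exact h2, by rw [hcard]; exact hmin, by
    rw [hcard]; exact himg⟩

lemma inj_param {Z : Finset ℤ} {x : ℤ}
    (hZ : Z = (Finset.range Z.card).image (fun i => T^[i] x)) :
    Set.InjOn (fun i => T^[i] x) (Finset.range Z.card : Set ℕ) := by
  classical
  rw [← Finset.card_image_iff, ← hZ, Finset.card_range]

/-- the elements of a cycle are not very large -/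
lemma size {x : ℤ} {p : ℕ} (hp : 1 ≤ p) (h : T^[p] x = x) : |x| ≤ 3 ^ p := by
  have hs := st 0 x
  obtain ⟨w, hw⟩ := walk_of (s := cl 0 x) (ε := py x) 0 p 0 le_rfl p (by omega)
  have hE : ∀ c η d, Ed (cl 0 x) (py x) 0 p c η d → St c η d := by
    rintro c η d ⟨t, -, -, h1, h2, h3⟩
    rw [← h1, ← h2, ← h3]
    exact hs t
  have hlen : ∀ n, n ≤ p → ∃ w, Wk (Ed (cl 0 x) (py x) 0 p) w (cl 0 x 0) (cl 0 x n) ∧
      w.length = n := by
    intro n
    induction n with
    | zero => intro _; exact ⟨[], Wk.nil _, rfl⟩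
    | succ n ih =>
      intro hn
      obtain ⟨w, h1, h2⟩ := ih (by omega)
      refine ⟨w ++ [py x n], h1.append (Wk.cons (e := cl 0 x (n + 1)) ?_ (Wk.nil _)), by simp [h2]⟩
      exact ⟨n, by omega, by omega, rfl, rfl, rfl⟩
  obtain ⟨w, h1, h2⟩ := hlen p le_rfl
  have h3 := h1.lin hE
  have h4 : (2 : ℤ) ^ w.length * x = 3 ^ ao w * x + (bo w : ℤ) := by
    have e1 : cl 0 x p = x := by
      unfold cl; rw [h]; rfl
    have e2 : cl 0 x 0 = x := rfl
    rw [e1, e2] at h3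
    exact h3
  have h5 := bo_le w
  rw [h2] at h4 h5
  have h6 : ((2 : ℤ) ^ p - 3 ^ ao w) * x = (bo w : ℤ) := by linarith
  have h7 : (2 : ℤ) ^ p - 3 ^ ao w ≠ 0 := by
    intro h0
    have hodd : Odd ((2 : ℤ) ^ p - 3 ^ ao w) := by
      apply Even.sub_odd
      · obtain ⟨k, rfl⟩ : ∃ k, p = k + 1 := ⟨p - 1, by omega⟩
        exact ⟨2 ^ k, by ring⟩
      · exact Odd.pow (by decide)
    rw [h0] at hodd
    exact absurd hodd (by decide)
  have h8 : |((2 : ℤ) ^ p - 3 ^ ao w)| * |x| = (bo w : ℤ) := by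
    rw [← abs_mul, h6]
    exact abs_of_nonneg (by positivity)
  have h9 : 1 ≤ |((2 : ℤ) ^ p - 3 ^ ao w)| := Int.one_le_abs h7
  have h10 : (bo w : ℤ) ≤ 3 ^ p := by
    have : bo w ≤ 3 ^ p := le_trans (Nat.le_add_right _ _) h5
    exact_mod_cast this
  have h11 := abs_nonneg x
  nlinarith

lemma finite_card (P : ℕ) : {Z : Finset ℤ | IsCycle Z ∧ Z.card ≤ P}.Finite := by
  classical
  refine ((Finset.Icc (-(3 : ℤ) ^ P) (3 ^ P)).powerset.finite_toSet).subset ?_
  rintro Z ⟨hZ, hP⟩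
  rw [Finset.mem_coe, Finset.mem_powerset]
  obtain ⟨x, h1, h2, -, h3⟩ := param hZ
  intro z hz
  rw [h3, Finset.mem_image] at hz
  obtain ⟨i, -, rfl⟩ := hz
  have h4 : T^[Z.card] (T^[i] x) = T^[i] x := by
    rw [← Function.iterate_add_apply, add_comm, Function.iterate_add_apply, h2]
  have h5 := size h1 h4
  have h6 : (3 : ℤ) ^ Z.card ≤ 3 ^ P := pow_le_pow_right₀ (by norm_num) hP
  rw [Finset.mem_Icc]
  rw [abs_le] at h5
  constructor <;> linarith

/-- the elements outside the classes in `R` -/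
def outside {M : ℕ} (R : Finset (ZMod M)) (Z : Finset ℤ) : Finset ℤ :=
  Z.filter fun x => (x : ZMod M) ∉ R

lemma outside_card {M : ℕ} (R : Finset (ZMod M)) {Z : Finset ℤ} {x : ℤ}
    (hZ : Z = (Finset.range Z.card).image (fun i => T^[i] x)) :
    (outside R Z).card = ((Finset.range Z.card).filter fun i => cl M x i ∉ R).card := by
  classical
  have h : outside R Z = ((Finset.range Z.card).filter fun i => cl M x i ∉ R).image
      (fun i => T^[i] x) := by
    ext z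
    unfold outside
    rw [Finset.mem_filter]
    constructor
    · rintro ⟨h1, h2⟩
      rw [hZ, Finset.mem_image] at h1
      obtain ⟨i, hi, rfl⟩ := h1
      exact Finset.mem_image.2 ⟨i, Finset.mem_filter.2 ⟨hi, h2⟩, rfl⟩
    · intro h
      obtain ⟨i, hi, rfl⟩ := Finset.mem_image.1 h
      rw [Finset.mem_filter] at hi
      refine ⟨?_, hi.2⟩
      rw [hZ]
      exact Finset.mem_image_of_mem _ hi.1
  rw [h, Finset.card_image_of_injOn]
  exact (inj_param hZ).mono (by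
    intro i hi
    rw [Finset.mem_coe] at hi ⊢
    exact (Finset.mem_filter.1 hi).1)

/-- the number of the classes of a cycle -/
theorem classes {M : ℕ} {Z : Finset ℤ} (hZ : IsCycle Z) :
    (Z.image fun x : ℤ => (x : ZMod M)).card = Z.card ∨
      M < 2 * 9 ^ (Z.image fun x : ℤ => (x : ZMod M)).card := by
  classical
  rcases Nat.lt_or_ge M (2 * 9 ^ (Z.image fun x : ℤ => (x : ZMod M)).card) with h | h
  · exact Or.inr h
  · left
    apply le_antisymm Finset.card_image_le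
    obtain ⟨x, h1, h2, h3, h4⟩ := param hZ
    refine cyc h1 h2 h3 h ?_
    intro i hi
    apply Finset.mem_image_of_mem
    rw [h4]
    exact Finset.mem_image_of_mem _ (Finset.mem_range.2 hi)

theorem traj_cycle {M : ℕ} {x : ℤ} {R : Finset (ZMod M)} (hR : 2 * 9 ^ R.card ≤ M)
    (h : ∃ n₀, ∀ n, n₀ ≤ n → ((T^[n] x : ℤ) : ZMod M) ∈ R) :
    ∃ Z, IsCycle Z ∧ Z.card ≤ R.card ∧ ∃ n, T^[n] x ∈ Z := by
  classical
  obtain ⟨i, q, h1, h2, h3⟩ := traj hR h
  refine ⟨(Finset.range q).image fun j => T^[j] (T^[i] x), ⟨T^[i] x, q, h1, ?_, rfl⟩, ?_, i, ?_⟩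
  · rw [← Function.iterate_add_apply, add_comm, h3]
  · exact Finset.card_image_le.trans (by rw [Finset.card_range]; exact h2)
  · exact Finset.mem_image.2 ⟨0, Finset.mem_range.2 h1, rfl⟩

section lib

lemma T_eq1 : T = Pool.Agent.H319R2.T := rfl

open Pool.Agent.H547R3.Sub in
lemma T_eq3 : T = Tm (3 : ℕ) 1 := by
  funext x; simp [T, Tm]

lemma sp_mod {x : ℤ} {ℓ m p : ℕ} (h : Sp (py x) ℓ 0 p m) : ∃ t : ℕ → ℕ, t 0 = 0 ∧ t m = p ∧
    (∀ i < m, t i ≤ t (i + 1)) ∧ ∀ i < m, ∃ π, 1 ≤ π ∧ π ≤ ℓ ∧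
      ∀ j, t i ≤ j → j + π < t (i + 1) → T^[j + π] x % 2 = T^[j] x % 2 := by
  obtain ⟨t, h0, h1, h2, h3⟩ := h
  refine ⟨t, h0, h1, h2, fun i hi => ?_⟩
  obtain ⟨π, h4, h5, h6⟩ := h3 i hi
  exact ⟨π, h4, h5, fun j h7 h8 => pr_eq_iff.1 (h6 j h7 h8)⟩

/-- the logarithmic lower bound for the number of the elements outside few classes -/
theorem out_log (C : ℝ) (hC : 0 < C) : ∃ A : ℝ, ∀ (Z : Finset ℤ) (M : ℕ) (R : Finset (ZMod M)),
    IsCycle Z → 2 * 9 ^ R.card ≤ M →
    C * Real.log (Z.card / (R.card + 1 + (1 + Real.log Z.card) ^ 2)) ≤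
      ((outside R Z).card + 1) * (2 * R.card + 1) + A := by
  obtain ⟨A, hA, h⟩ := Pool.Agent.H547R3.Sub.cycleT2 (q := 3) Nat.prime_three (by norm_num) C hC
  refine ⟨C * Real.log A, fun Z M R hZ hR => ?_⟩
  obtain ⟨x, hp, hper, hprim, hZx⟩ := param hZ
  have hd := decomp (st M x) hR (ℓ := R.card + 1) (by omega) (by omega) Z.card
  rw [← outside_card R hZx] at hd
  obtain ⟨t, h0, hm, hmono, hpr⟩ := sp_mod hd
  clear hZx
  have hD : Pool.Agent.H547R3.Sub.Dec (Pool.Agent.H547R3.Sub.par (3 : ℕ) 1 x) (R.card + 1)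
      (((outside R Z).card + 1) * (2 * R.card + 1)) 0 Z.card := by
    refine ⟨t, h0, hm, hmono, fun i hi => ?_⟩
    obtain ⟨π, h1, h2, h3⟩ := hpr i hi
    refine ⟨π, h1, h2, fun j hj1 hj2 => ?_⟩
    have h4 := h3 j hj1 hj2
    rw [T_eq3] at h4
    exact Pool.Agent.H547R3.Sub.par_int _ _ _ _ _ h4
  rw [T_eq3] at hper hprim
  have h1 := h 1 (by norm_num) x Z.card _ _ hp hper hprim hD
  have hpR : (1 : ℝ) ≤ Z.card := by exact_mod_cast hp
  have hlogp : 0 ≤ Real.log Z.card := Real.log_nonneg hpR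
  simp only [Int.cast_one, abs_one, Real.log_one, add_zero] at h1
  push_cast at h1
  have hS0 : (0 : ℝ) < R.card + 1 + (1 + Real.log Z.card) ^ 2 := by positivity
  obtain ⟨m, hm'⟩ : ∃ m : ℝ, m = ((outside R Z).card + 1) * (2 * R.card + 1) := ⟨_, rfl⟩
  rw [← hm'] at h1 ⊢
  have h2 : Real.log (Z.card / (R.card + 1 + (1 + Real.log Z.card) ^ 2)) ≤
      Real.log (A * Real.exp (m / C)) := by
    apply Real.log_le_log (by positivity)
    rw [div_le_iff₀ hS0]
    linarith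
  rw [Real.log_mul hA.ne' (Real.exp_pos _).ne', Real.log_exp] at h2
  have h3 := mul_le_mul_of_nonneg_left h2 hC.le
  have h4 : C * (Real.log A + m / C) = m + C * Real.log A := by field_simp; ring
  linarith

/-- the lower bound in terms of the size of the elements -/
theorem out_size (ε : ℝ) (hε : 0 < ε) : ∃ C : ℝ, ∀ (Z : Finset ℤ) (M : ℕ) (R : Finset (ZMod M))
    (B : ℝ), IsCycle Z → 2 * 9 ^ R.card ≤ M → (∀ x ∈ Z, |(x : ℝ)| ≤ B) →
    (Z.card : ℝ) ≤ ((outside R Z).card + 1) * (2 * R.card + 1) *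
      (ε * Real.log (B + 1) + C * (R.card + 2)) := by
  obtain ⟨C, hC, h⟩ := Pool.Agent.R343.SC.pieces ε hε
  refine ⟨C, fun Z M R B hZ hR hB => ?_⟩
  obtain ⟨x, hp, hper, hprim, hZx⟩ := param hZ
  have hd := decomp (st M x) hR (ℓ := R.card + 1) (by omega) (by omega) Z.card
  rw [← outside_card R hZx] at hd
  obtain ⟨t, h0, hm, hmono, hpr⟩ := sp_mod hd
  obtain ⟨m, hm'⟩ : ∃ m : ℕ, m = ((outside R Z).card + 1) * (2 * R.card + 1) := ⟨_, rfl⟩
  rw [← hm'] at hm hmono hpr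
  have h1 := h x Z.card m (R.card + 1) t hp hper hprim h0 hm hmono hpr
  have h2 : ∀ i ∈ Finset.range m,
      Real.log (|((Pool.Agent.H319R2.T^[t i] x : ℤ) : ℝ)| + 1) ≤ Real.log (B + 1) := by
    intro i _
    apply Real.log_le_log (by positivity)
    have h3 : T^[t i] x ∈ Z := by
      rw [hZx, Finset.mem_image]
      exact ⟨t i % Z.card, Finset.mem_range.2 (Nat.mod_lt _ (by omega)), per_iter_mod hper _⟩
    have := hB _ h3
    rw [T_eq1] at this
    linarith
  have h3 := Finset.sum_le_sum h2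
  rw [Finset.sum_const, Finset.card_range, nsmul_eq_mul] at h3
  have h4 : ((m : ℕ) : ℝ) = ((outside R Z).card + 1) * (2 * R.card + 1) := by
    rw [hm']; push_cast; ring
  rw [← h4]
  have h5 := mul_le_mul_of_nonneg_left h3 hε.le
  push_cast at h1
  calc (Z.card : ℝ) ≤ _ := h1
    _ ≤ ε * (m * Real.log (B + 1)) + C * (m * (R.card + 1 + 1)) := by linarith
    _ = _ := by ring

/-- only finitely many cycles have almost all their elements in few classes -/
theorem finite_few (W E : ℕ) : {Z : Finset ℤ | IsCycle Z ∧ ∃ (M : ℕ) (R : Finset (ZMod M)),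
    R.card ≤ W ∧ 2 * 9 ^ R.card ≤ M ∧ (outside R Z).card ≤ E}.Finite := by
  obtain ⟨A, hA⟩ := out_log 1 one_pos
  obtain ⟨K, hK⟩ : ∃ K : ℝ, K = Real.exp (((E : ℝ) + 1) * (2 * W + 1) + A) := ⟨_, rfl⟩
  have hK0 : 0 < K := by rw [hK]; exact Real.exp_pos _
  obtain ⟨P, hP⟩ := exists_nat_ge (max (2 * K * (W + 1)) ((50 * K) ^ 2))
  refine (finite_card P).subset ?_
  rintro Z ⟨hZ, M, R, h1, h2, h3⟩
  refine ⟨hZ, ?_⟩
  by_contra hcon
  rw [not_le] at hcon
  have hPZ : (P : ℝ) < Z.card := by exact_mod_cast hcon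
  have h4 := hA Z M R hZ h2
  obtain ⟨x, hp, -, -, -⟩ := param hZ
  have hpR : (1 : ℝ) ≤ Z.card := by exact_mod_cast hp
  have hlogp : 0 ≤ Real.log Z.card := Real.log_nonneg hpR
  obtain ⟨y, hy⟩ : ∃ y : ℝ, y = Z.card := ⟨_, rfl⟩
  rw [← hy] at h4 hPZ hpR hlogp
  have hR' : (R.card : ℝ) ≤ W := by exact_mod_cast h1
  have hE' : ((outside R Z).card : ℝ) ≤ E := by exact_mod_cast h3
  have h5 : Real.log (y / (R.card + 1 + (1 + Real.log y) ^ 2)) ≤
      ((E : ℝ) + 1) * (2 * W + 1) + A := by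
    have h6 : (((outside R Z).card : ℝ) + 1) * (2 * R.card + 1) ≤ ((E : ℝ) + 1) * (2 * W + 1) :=
      mul_le_mul (by linarith) (by linarith) (by positivity) (by positivity)
    linarith
  have hS0 : (0 : ℝ) < R.card + 1 + (1 + Real.log y) ^ 2 := by positivity
  rw [Real.log_le_iff_le_exp (by positivity), ← hK, div_le_iff₀ hS0] at h5
  -- logarithms
  have hy0 : 0 < y := by linarith
  have hsq : 1 ≤ Real.sqrt y := Real.one_le_sqrt.2 hpR
  have hss : 1 ≤ Real.sqrt (Real.sqrt y) := Real.one_le_sqrt.2 hsq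
  have e1 : Real.sqrt y * Real.sqrt y = y := Real.mul_self_sqrt hy0.le
  have e2 : Real.sqrt (Real.sqrt y) * Real.sqrt (Real.sqrt y) = Real.sqrt y :=
    Real.mul_self_sqrt (Real.sqrt_nonneg _)
  have e3 : Real.log y = 4 * Real.log (Real.sqrt (Real.sqrt y)) := by
    rw [Real.log_sqrt (Real.sqrt_nonneg _), Real.log_sqrt hy0.le]; ring
  have e4 : Real.log (Real.sqrt (Real.sqrt y)) ≤ Real.sqrt (Real.sqrt y) := by
    have := Real.log_le_sub_one_of_pos (x := Real.sqrt (Real.sqrt y)) (by linarith)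
    linarith
  obtain ⟨r, hr⟩ : ∃ r, r = Real.sqrt (Real.sqrt y) := ⟨_, rfl⟩
  rw [← hr] at e2 e3 e4 hss
  have e5 : (1 + Real.log y) ^ 2 ≤ 25 * Real.sqrt y := by
    rw [← e2]
    have : 1 + Real.log y ≤ 5 * r := by linarith
    nlinarith
  obtain ⟨q, hq⟩ : ∃ q, q = Real.sqrt y := ⟨_, rfl⟩
  rw [← hq] at e1 e5 hsq
  have h7 : y ≤ K * (W + 1 + 25 * q) :=
    h5.trans (mul_le_mul_of_nonneg_left (by linarith) hK0.le)
  have h8 := (le_max_left (2 * K * (W + 1)) ((50 * K) ^ 2)).trans hP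
  have h9 := (le_max_right (2 * K * (W + 1)) ((50 * K) ^ 2)).trans hP
  have h10 : 50 * K < q := by
    by_contra hcon
    rw [not_lt] at hcon
    have : q * q ≤ (50 * K) ^ 2 := by nlinarith
    rw [e1] at this
    linarith
  nlinarith

end lib

end Pool.Agent.V5helper8.RC
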