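import Pool.Agent.V5helper8.RC.Base

/-!
# Sequences of residue classes with few values: decomposition into periodic pieces
-/

set_option autoImplicit false

namespace Pool.Agent.V5helper8.RC

variable {M : ℕ} {s : ℕ → ZMod M} {ε : ℕ → Bool}

/-- the steps used in `[i, j)` -/
def Ed (s : ℕ → ZMod M) (ε : ℕ → Bool) (i j : ℕ) (c : ZMod M) (η : Bool) (d : ZMod M) : Prop :=
  ∃ l, i ≤ l ∧ l < j ∧ s l = c ∧ ε l = η ∧ s (l + 1) = d

lemma walk_of (i j p : ℕ) (hip : i ≤ p) : ∀ n, p + n ≤ j →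
    ∃ w, Wk (Ed s ε i j) w (s p) (s (p + n)) := by
  intro n
  induction n with
  | zero => intro _; exact ⟨[], Wk.nil _⟩
  | succ n ih =>
    intro h
    obtain ⟨w, hw⟩ := ih (by omega)
    refine ⟨w ++ [ε (p + n)], hw.append (Wk.cons (e := s (p + n + 1)) ?_ (Wk.nil _))⟩
    exact ⟨p + n, by omega, by omega, rfl, rfl, rfl⟩

/-- inside a closed walk there is no branching -/
theorem det (hs : ∀ i, St (s i) (ε i) (s (i + 1))) {R : Finset (ZMod M)}
    (hR : 2 * 9 ^ R.card ≤ M) {i j : ℕ} (hij : i ≤ j) (hsij : s i = s j)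
    (hmem : ∀ l, i ≤ l → l ≤ j → s l ∈ R) {l l' : ℕ} (hl : i ≤ l) (hlj : l < j) (hl' : i ≤ l')
    (hlj' : l' < j) (heq : s l = s l') : ε l = ε l' ∧ s (l + 1) = s (l' + 1) := by
  have hF : ∀ c η d, Ed s ε i j c η d → d ∈ R := by
    rintro c η d ⟨t, h1, h2, -, -, h3⟩
    rw [← h3]
    exact hmem _ (by omega) (by omega)
  have hE : ∀ c η d, Ed s ε i j c η d → St c η d := by
    rintro c η d ⟨t, -, -, h1, h2, h3⟩
    rw [← h1, ← h2, ← h3]
    exact hs t
  have hw : ∀ l, i ≤ l → l < j → ∃ w, Wk (Ed s ε i j) w (s (l + 1)) (s l) ∧ w.length < R.card := by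
    intro l h1 h2
    obtain ⟨w1, hw1⟩ := walk_of (s := s) (ε := ε) i j (l + 1) (by omega) (j - (l + 1)) (by omega)
    rw [show l + 1 + (j - (l + 1)) = j by omega, ← hsij] at hw1
    obtain ⟨w2, hw2⟩ := walk_of (s := s) (ε := ε) i j i le_rfl (l - i) (by omega)
    rw [show i + (l - i) = l by omega] at hw2
    exact (hw1.append hw2).short hF (hmem _ (by omega) (by omega))
  obtain ⟨w, hw1, hw2⟩ := hw l hl hlj
  obtain ⟨w', hw1', hw2'⟩ := hw l' hl' hlj'
  by_contra hcon
  have hne : s (l + 1) ≠ s (l' + 1) ∨ ε l ≠ ε l' := by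
    by_contra h
    push Not at h
    exact hcon ⟨h.2, h.1⟩
  have h1 := hs l
  have h1' := hs l'
  rw [← heq] at h1' hw1'
  have h3 := two_walks h1 h1' (hw1.lin hE) (hw1'.lin hE) hne
  have h4 : (3 : ℕ) ^ ((w.length + 1) + (w'.length + 1)) ≤ 9 ^ R.card := by
    rw [show (9 : ℕ) = 3 ^ 2 by norm_num, ← pow_mul]
    exact Nat.pow_le_pow_right (by norm_num) (by omega)
  omega

/-- periodicity inside a closed walk -/
theorem per (hs : ∀ i, St (s i) (ε i) (s (i + 1))) {R : Finset (ZMod M)}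
    (hR : 2 * 9 ^ R.card ≤ M) {i j q : ℕ} (hij : i ≤ j) (hsij : s i = s j)
    (hmem : ∀ l, i ≤ l → l ≤ j → s l ∈ R) (hq : s (i + q) = s i) :
    ∀ n, i + n + q ≤ j → s (i + n + q) = s (i + n) := by
  intro n
  induction n with
  | zero => intro _; exact hq
  | succ n ih =>
    intro h
    have h1 := ih (by omega)
    have h2 := det hs hR hij hsij hmem (l := i + n + q) (l' := i + n) (by omega) (by omega)
      (by omega) (by omega) h1
    rw [show i + (n + 1) + q = i + n + q + 1 by omega, h2.2]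
    rfl

theorem per_letter (hs : ∀ i, St (s i) (ε i) (s (i + 1))) {R : Finset (ZMod M)}
    (hR : 2 * 9 ^ R.card ≤ M) {i j q : ℕ} (hij : i ≤ j) (hsij : s i = s j)
    (hmem : ∀ l, i ≤ l → l ≤ j → s l ∈ R) (hq : s (i + q) = s i) {l : ℕ} (hl : i ≤ l)
    (hlj : l + q < j) : ε (l + q) = ε l := by
  have h1 := per hs hR hij hsij hmem hq (l - i) (by omega)
  rw [show i + (l - i) + q = l + q by omega, show i + (l - i) = l by omega] at h1
  exact (det hs hR hij hsij hmem (by omega) hlj hl (by omega) h1).1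

/-- the first return time is at most the number of classes -/
theorem first (hs : ∀ i, St (s i) (ε i) (s (i + 1))) {R : Finset (ZMod M)}
    (hR : 2 * 9 ^ R.card ≤ M) {i j : ℕ} (hij : i < j) (hsij : s i = s j)
    (hmem : ∀ l, i ≤ l → l ≤ j → s l ∈ R) :
    ∃ q, 1 ≤ q ∧ q ≤ R.card ∧ i + q ≤ j ∧ s (i + q) = s i ∧
      ∀ q', 1 ≤ q' → s (i + q') = s i → q ≤ q' := by
  classical
  have hex : ∃ q, 1 ≤ q ∧ s (i + q) = s i := ⟨j - i, by omega, by
    rw [show i + (j - i) = j by omega, hsij]⟩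
  obtain ⟨h1, h2⟩ := Nat.find_spec hex
  obtain ⟨q, hq⟩ : ∃ q, q = Nat.find hex := ⟨_, rfl⟩
  have hmin : ∀ q', 1 ≤ q' → s (i + q') = s i → q ≤ q' := fun q' h3 h4 => by
    rw [hq]; exact Nat.find_min' hex ⟨h3, h4⟩
  rw [← hq] at h1 h2
  have hqj : i + q ≤ j := by
    have := hmin (j - i) (by omega) (by rw [show i + (j - i) = j by omega, hsij])
    omega
  refine ⟨q, h1, ?_, hqj, h2, hmin⟩
  by_contra hcon
  rw [not_le] at hcon
  obtain ⟨a, ha, b, hb, hab, hsab⟩ := Finset.exists_ne_map_eq_of_card_lt_of_maps_to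
    (s := Finset.range q) (t := R) (f := fun t => s (i + t))
    (by rw [Finset.card_range]; exact hcon)
    (fun t ht => hmem _ (by omega) (by have := Finset.mem_range.1 ht; omega))
  have key : ∀ a b, a < b → b < q → s (i + a) = s (i + b) → False := by
    intro a b hab hb hsab
    have h3 : ∀ n, i + b + n ≤ j → s (i + b + n) = s (i + a + n) := by
      intro n
      induction n with
      | zero => intro _; exact hsab.symm
      | succ n ih =>
        intro h
        exact (det hs hR hij.le hsij hmem (l := i + b + n) (l' := i + a + n) (by omega) (by omega)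
          (by omega) (by omega) (ih (by omega))).2
    have h4 := h3 (q - b) (by omega)
    rw [show i + b + (q - b) = i + q by omega, h2] at h4
    have h5 := hmin (a + (q - b)) (by omega) (by rw [← add_assoc]; exact h4.symm)
    omega
  rcases lt_or_gt_of_ne hab with h | h
  · exact key a b h (Finset.mem_range.1 hb) hsab
  · exact key b a h (Finset.mem_range.1 ha) hsab.symm

/-! ### decompositions -/

/-- the interval `[a, b)` is cut into `m` pieces of period at most `ℓ` -/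
def Sp (ε : ℕ → Bool) (ℓ a b m : ℕ) : Prop :=
  ∃ t : ℕ → ℕ, t 0 = a ∧ t m = b ∧ (∀ i < m, t i ≤ t (i + 1)) ∧
    ∀ i < m, ∃ π, 1 ≤ π ∧ π ≤ ℓ ∧ ∀ l, t i ≤ l → l + π < t (i + 1) → ε (l + π) = ε l

lemma Sp.nil (ℓ a : ℕ) : Sp ε ℓ a a 0 :=
  ⟨fun _ => a, rfl, rfl, fun i hi => absurd hi (by omega), fun i hi => absurd hi (by omega)⟩

lemma Sp.one {ℓ a b π : ℕ} (hab : a ≤ b) (h1 : 1 ≤ π) (h2 : π ≤ ℓ)
    (h : ∀ l, a ≤ l → l + π < b → ε (l + π) = ε l) : Sp ε ℓ a b 1 := by
  refine ⟨fun i => if i = 0 then a else b, rfl, rfl, ?_, ?_⟩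
  · intro i hi
    rw [show i = 0 by omega]
    simpa using hab
  · intro i hi
    rw [show i = 0 by omega]
    refine ⟨π, h1, h2, ?_⟩
    simpa using h

lemma Sp.append {ℓ a b c m n : ℕ} (h1 : Sp ε ℓ a b m) (h2 : Sp ε ℓ b c n) :
    Sp ε ℓ a c (m + n) := by
  obtain ⟨t, t0, tm, tmono, tper⟩ := h1
  obtain ⟨u, u0, un, umono, uper⟩ := h2
  have e1 : ∀ i, i ≤ m → (if i ≤ m then t i else u (i - m)) = t i := fun i hi => by rw [if_pos hi]
  have e2 : ∀ i, m ≤ i → (if i ≤ m then t i else u (i - m)) = u (i - m) := by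
    intro i hi
    rcases eq_or_lt_of_le hi with h | h
    · rw [if_pos h.symm.le, ← h, Nat.sub_self, u0, tm]
    · rw [if_neg (by omega)]
  refine ⟨fun i => if i ≤ m then t i else u (i - m), ?_, ?_, ?_, ?_⟩
  · simp [t0]
  · show (if m + n ≤ m then t (m + n) else u (m + n - m)) = c
    rw [e2 _ (by omega), Nat.add_sub_cancel_left, un]
  · intro i hi
    show (if i ≤ m then t i else u (i - m)) ≤ (if i + 1 ≤ m then t (i + 1) else u (i + 1 - m))
    rcases lt_or_ge i m with h | h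
    · rw [e1 _ h.le, e1 _ h]; exact tmono i h
    · rw [e2 _ h, e2 _ (by omega), show i + 1 - m = i - m + 1 by omega]
      exact umono _ (by omega)
  · intro i hi
    show ∃ π, 1 ≤ π ∧ π ≤ ℓ ∧ ∀ l, (if i ≤ m then t i else u (i - m)) ≤ l →
      l + π < (if i + 1 ≤ m then t (i + 1) else u (i + 1 - m)) → ε (l + π) = ε l
    rcases lt_or_ge i m with h | h
    · rw [e1 _ h.le, e1 _ h]; exact tper i h
    · rw [e2 _ h, e2 _ (by omega), show i + 1 - m = i - m + 1 by omega]
      exact uper _ (by omega)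

lemma Sp.pad {ℓ a b m n : ℕ} (hℓ : 1 ≤ ℓ) (h : Sp ε ℓ a b m) (hmn : m ≤ n) : Sp ε ℓ a b n := by
  induction n, hmn using Nat.le_induction with
  | base => exact h
  | succ n _ ih => exact ih.append (Sp.one le_rfl le_rfl hℓ (fun l h1 h2 => by omega))

lemma Sp.succ {ℓ a : ℕ} (hℓ : 1 ≤ ℓ) : Sp ε ℓ a (a + 1) 1 :=
  Sp.one (by omega) le_rfl hℓ (fun l h1 h2 => by omega)

/-- a stretch in `R` -/
theorem stretch (hs : ∀ i, St (s i) (ε i) (s (i + 1))) {R : Finset (ZMod M)}
    (hR : 2 * 9 ^ R.card ≤ M) {ℓ : ℕ} (hℓ : 1 ≤ ℓ) (hRℓ : R.card ≤ ℓ) :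
    ∀ n a b, a ≤ b → (∀ l, a ≤ l → l < b → s l ∈ R) →
      ((Finset.Ico a b).image s).card ≤ n → Sp ε ℓ a b (2 * n) := by
  classical
  intro n
  induction n with
  | zero =>
    intro a b hab _ hc
    have h1 : (Finset.Ico a b).image s = ∅ := Finset.card_eq_zero.1 (by omega)
    have h2 : Finset.Ico a b = ∅ := by
      rwa [Finset.image_eq_empty] at h1
    have h3 : b ≤ a := Finset.Ico_eq_empty_iff.1 h2 |> not_lt.1
    rw [le_antisymm h3 hab]
    exact Sp.nil _ _
  | succ n ih =>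
    intro a b hab hmem hc
    rcases eq_or_lt_of_le hab with h | hlt
    · rw [← h]
      exact (Sp.nil _ _).pad hℓ (by omega)
    · -- the last visit to the class of `a`
      obtain ⟨j, hj⟩ : ∃ j, j = Nat.findGreatest (fun l => s l = s a) (b - 1) := ⟨_, rfl⟩
      have hj1 : s j = s a := by
        rw [hj]
        exact Nat.findGreatest_spec (P := fun l => s l = s a) (m := a) (by omega) rfl
      have hj2 : j ≤ b - 1 := by rw [hj]; exact Nat.findGreatest_le _
      have hj3 : a ≤ j := by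
        rw [hj]; exact Nat.le_findGreatest (by omega) rfl
      have hj4 : ∀ l, j < l → l < b → s l ≠ s a := by
        intro l h1 h2
        rw [hj] at h1
        exact Nat.findGreatest_is_greatest h1 (by omega)
      have p1 : Sp ε ℓ a j 1 := by
        rcases eq_or_lt_of_le hj3 with h | h
        · rw [← h]; exact (Sp.nil _ _).pad hℓ (by omega)
        · have hm : ∀ l, a ≤ l → l ≤ j → s l ∈ R := fun l h1 h2 => hmem l h1 (by omega)
          obtain ⟨q, hq1, hq2, hq3, hq4, -⟩ := first hs hR h hj1.symm hm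
          exact Sp.one hj3 hq1 (by omega) fun l h1 h2 =>
            per_letter hs hR hj3 hj1.symm hm hq4 h1 h2
      have p2 : Sp ε ℓ j (j + 1) 1 := Sp.succ hℓ
      have p3 : Sp ε ℓ (j + 1) b (2 * n) := by
        apply ih (j + 1) b (by omega) (fun l h1 h2 => hmem l (by omega) h2)
        have h1 : (Finset.Ico (j + 1) b).image s ⊆ ((Finset.Ico a b).image s).erase (s a) := by
          intro c hc
          rw [Finset.mem_image] at hc
          obtain ⟨l, hl, rfl⟩ := hc
          rw [Finset.mem_Ico] at hl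
          rw [Finset.mem_erase, Finset.mem_image]
          exact ⟨hj4 l (by omega) hl.2, l, Finset.mem_Ico.2 ⟨by omega, hl.2⟩, rfl⟩
        have h2 := Finset.card_le_card h1
        have h3 : s a ∈ (Finset.Ico a b).image s :=
          Finset.mem_image_of_mem _ (Finset.mem_Ico.2 ⟨le_rfl, hlt⟩)
        rw [Finset.card_erase_of_mem h3] at h2
        omega
      have := (p1.append p2).append p3
      rwa [show 1 + 1 + 2 * n = 2 * (n + 1) by ring] at this

theorem stretch' (hs : ∀ i, St (s i) (ε i) (s (i + 1))) {R : Finset (ZMod M)}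
    (hR : 2 * 9 ^ R.card ≤ M) {ℓ : ℕ} (hℓ : 1 ≤ ℓ) (hRℓ : R.card ≤ ℓ) {a b : ℕ} (hab : a ≤ b)
    (hmem : ∀ l, a ≤ l → l < b → s l ∈ R) : Sp ε ℓ a b (2 * R.card) := by
  classical
  refine stretch hs hR hℓ hRℓ _ a b hab hmem (Finset.card_le_card ?_)
  intro c hc
  rw [Finset.mem_image] at hc
  obtain ⟨l, hl, rfl⟩ := hc
  rw [Finset.mem_Ico] at hl
  exact hmem l hl.1 hl.2

/-- all positions: `e` of them outside `R` -/
theorem decomp (hs : ∀ i, St (s i) (ε i) (s (i + 1))) {R : Finset (ZMod M)}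
    (hR : 2 * 9 ^ R.card ≤ M) {ℓ : ℕ} (hℓ : 1 ≤ ℓ) (hRℓ : R.card ≤ ℓ) (p : ℕ) :
    Sp ε ℓ 0 p ((((Finset.range p).filter fun i => s i ∉ R).card + 1) * (2 * R.card + 1)) := by
  classical
  have key : ∀ b, ∃ a, a ≤ b ∧ Sp ε ℓ 0 a
      (((Finset.range b).filter fun i => s i ∉ R).card * (2 * R.card + 1)) ∧
      ∀ l, a ≤ l → l < b → s l ∈ R := by
    intro b
    induction b with
    | zero => exact ⟨0, le_rfl, by simpa using Sp.nil (ε := ε) ℓ 0, fun l h1 h2 => by omega⟩
    | succ b ih =>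
      obtain ⟨a, h1, h2, h3⟩ := ih
      by_cases hb : s b ∈ R
      · refine ⟨a, by omega, ?_, ?_⟩
        · rw [Finset.range_add_one, Finset.filter_insert, if_neg (by simpa using hb)]
          exact h2
        · intro l h4 h5
          rcases eq_or_lt_of_le (Nat.lt_succ_iff.1 h5) with h | h
          · rw [h]; exact hb
          · exact h3 l h4 h
      · refine ⟨b + 1, le_rfl, ?_, fun l h4 h5 => by omega⟩
        rw [Finset.range_add_one, Finset.filter_insert, if_pos hb, Finset.card_insert_of_notMem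
          (by simp)]
        have h4 := (h2.append (stretch' hs hR hℓ hRℓ h1 h3)).append (Sp.succ hℓ)
        refine h4.pad hℓ (le_of_eq ?_)
        ring
  obtain ⟨a, h1, h2, h3⟩ := key p
  have h4 := h2.append (stretch' hs hR hℓ hRℓ h1 h3)
  refine h4.pad hℓ ?_
  nlinarith

end Pool.Agent.V5helper8.RC
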