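import Pool.Agent.V5helper8.RC.Seq

/-!
# Trajectories of the 3x+1 map in few residue classes
-/

set_option autoImplicit false

namespace Pool.Agent.V5helper8.RC

/-- The `3x+1` map on the integers. -/
def T (x : ℤ) : ℤ := if x % 2 = 0 then x / 2 else (3 * x + 1) / 2

/-- the parity -/
def pr (x : ℤ) : Bool := decide (x % 2 = 1)

lemma two_T (x : ℤ) : 2 * T x = 3 ^ nb (pr x) * x + nb (pr x) := by
  rcases Int.emod_two_eq_zero_or_one x with h | h
  · simp only [T, pr, nb, h]
    norm_num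
    omega
  · simp only [T, pr, nb, h]
    norm_num
    omega

lemma pr_eq_iff {x y : ℤ} : pr x = pr y ↔ x % 2 = y % 2 := by
  have h1 := Int.emod_two_eq_zero_or_one x
  have h2 := Int.emod_two_eq_zero_or_one y
  unfold pr
  rcases h1 with h1 | h1 <;> rcases h2 with h2 | h2 <;> simp [h1, h2]

lemma eq_of_pr {x y : ℤ} (h : ∀ n, pr (T^[n] x) = pr (T^[n] y)) : x = y := by
  have key : ∀ n, ∀ x y : ℤ, (∀ n, pr (T^[n] x) = pr (T^[n] y)) → (2 : ℤ) ^ n ∣ x - y := by
    intro n
    induction n with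
    | zero => intro x y _; simp
    | succ n ih =>
      intro x y h
      have h0 : pr x = pr y := h 0
      have h1 := ih (T x) (T y) (fun n => by
        rw [← Function.iterate_succ_apply, ← Function.iterate_succ_apply]
        exact h (n + 1))
      have h2 : 2 * (T x - T y) = 3 ^ nb (pr x) * (x - y) := by
        have := two_T x
        have := two_T y
        rw [← h0] at this
        linarith
      have h3 : (2 : ℤ) ^ (n + 1) ∣ 3 ^ nb (pr x) * (x - y) := by
        rw [← h2, pow_succ, mul_comm]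
        exact mul_dvd_mul_left 2 h1
      refine IsCoprime.dvd_of_dvd_mul_left ?_ h3
      exact IsCoprime.pow (by norm_num)
  by_contra hne
  have h0 : 0 < |x - y| := abs_pos.2 (sub_ne_zero.2 hne)
  obtain ⟨n, hn⟩ : ∃ n : ℕ, |x - y| < 2 ^ n := by
    refine ⟨(|x - y|).toNat, ?_⟩
    have : (|x - y|).toNat < 2 ^ (|x - y|).toNat := Nat.lt_two_pow_self
    have h1 : ((|x - y|).toNat : ℤ) < 2 ^ (|x - y|).toNat := by exact_mod_cast this
    rwa [Int.toNat_of_nonneg (abs_nonneg _)] at h1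
  have h1 := Int.le_of_dvd h0 ((dvd_abs _ _).2 (key n x y h))
  omega

section seq

variable (M : ℕ) (x : ℤ)

/-- the classes of the trajectory -/
def cl (i : ℕ) : ZMod M := ((T^[i] x : ℤ) : ZMod M)

/-- the parities of the trajectory -/
def py (i : ℕ) : Bool := pr (T^[i] x)

lemma st (i : ℕ) : St (cl M x i) (py x i) (cl M x (i + 1)) := by
  unfold St cl py
  rw [Function.iterate_succ_apply']
  have h := congrArg (fun z : ℤ => (z : ZMod M)) (two_T (T^[i] x))
  push_cast at h
  exact h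

end seq

/-- a trajectory which stays in few classes ends in a short cycle -/
theorem traj {M : ℕ} {x : ℤ} {R : Finset (ZMod M)} (hR : 2 * 9 ^ R.card ≤ M)
    (h : ∃ n₀, ∀ n, n₀ ≤ n → cl M x n ∈ R) :
    ∃ i q, 1 ≤ q ∧ q ≤ R.card ∧ T^[i + q] x = T^[i] x := by
  classical
  obtain ⟨n₀, hn₀⟩ := h
  let f : ℕ → R := fun n => ⟨cl M x (n₀ + n), hn₀ _ (by omega)⟩
  obtain ⟨c, hc⟩ := Finite.exists_infinite_fiber f
  have hinf : (f ⁻¹' {c}).Infinite := Set.infinite_coe_iff.1 hc
  have hlarge : ∀ m, ∃ n, m ≤ n ∧ cl M x (n₀ + n) = c := by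
    intro m
    obtain ⟨n, hn, hmn⟩ := hinf.exists_gt m
    exact ⟨n, hmn.le, congrArg Subtype.val hn⟩
  obtain ⟨i₁, -, hi₁⟩ := hlarge 0
  obtain ⟨i, hi⟩ : ∃ i, i = n₀ + i₁ := ⟨_, rfl⟩
  rw [← hi] at hi₁
  have hmem : ∀ l, i ≤ l → cl M x l ∈ R := fun l hl => hn₀ l (by omega)
  have hlarge' : ∀ m, ∃ n, m ≤ n ∧ i < n ∧ cl M x i = cl M x n := by
    intro m
    obtain ⟨n, h1, h2⟩ := hlarge (m + i + 1)
    exact ⟨n₀ + n, by omega, by omega, by rw [hi₁, h2]⟩
  obtain ⟨j₀, -, hj1, hj2⟩ := hlarge' 0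
  obtain ⟨q, hq1, hq2, -, hq4, -⟩ := first (st M x) hR hj1 hj2 (fun l h1 _ => hmem l h1)
  refine ⟨i, q, hq1, hq2, ?_⟩
  apply eq_of_pr
  intro n
  rw [← Function.iterate_add_apply, ← Function.iterate_add_apply]
  obtain ⟨j, h1, h2, h3⟩ := hlarge' (n + i + q + 1)
  have h4 := per_letter (st M x) hR h2.le h3 (fun l h1 _ => hmem l h1) hq4 (l := n + i)
    (by omega) (by omega)
  unfold py at h4
  rw [show n + (i + q) = n + i + q by omega]
  exact h4

/-- iterates of a periodic point -/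
lemma per_iter {x : ℤ} {p : ℕ} (h : T^[p] x = x) (n : ℕ) : T^[n + p] x = T^[n] x := by
  rw [Function.iterate_add_apply, h]

lemma per_iter_mod {x : ℤ} {p : ℕ} (h : T^[p] x = x) (n : ℕ) : T^[n % p] x = T^[n] x := by
  conv_rhs => rw [← Nat.mod_add_div n p]
  generalize n / p = k
  induction k with
  | zero => rfl
  | succ k ih => rw [Nat.mul_succ, ← add_assoc, per_iter h, ih]

/-- cycles -/
theorem cyc {M : ℕ} {x : ℤ} {p : ℕ} (hp : 1 ≤ p) (hper : T^[p] x = x)
    (hprim : ∀ j, 1 ≤ j → j < p → T^[j] x ≠ x) {R : Finset (ZMod M)} (hR : 2 * 9 ^ R.card ≤ M)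
    (h : ∀ i < p, cl M x i ∈ R) : p ≤ R.card := by
  have hall : ∀ n, cl M x n ∈ R := by
    intro n
    have h1 := h (n % p) (Nat.mod_lt _ (by omega))
    unfold cl at h1 ⊢
    rwa [per_iter_mod hper] at h1
  obtain ⟨i, q, hq1, hq2, hq3⟩ := traj (x := x) hR ⟨0, fun n _ => hall n⟩
  by_contra hcon
  rw [not_le] at hcon
  have hqp : q < p := by omega
  apply hprim q hq1 hqp
  have h1 : T^[i * p] x = x := by
    clear hq3
    induction i with
    | zero => simp
    | succ i ih => rw [Nat.succ_mul, per_iter hper, ih]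
  have h2 : T^[i * p - i] (T^[i + q] x) = T^[i * p - i] (T^[i] x) := by rw [hq3]
  rw [← Function.iterate_add_apply, ← Function.iterate_add_apply] at h2
  have h3 : i ≤ i * p := Nat.le_mul_of_pos_right _ (by omega)
  rw [show i * p - i + (i + q) = q + i * p by omega, show i * p - i + i = i * p by omega, h1,
    Function.iterate_add_apply, h1] at h2
  exact h2

end Pool.Agent.V5helper8.RC
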